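import Mathlib

namespace Pool.Agent.Lib_helper23.GP

/-- Hoelder with exponents 9/5 and 9/4 for the powers 5/9, 4/9. -/
theorem hold59 {ι : Type*} (J : Finset ι) (b t : ι → ℝ) (hb : ∀ j ∈ J, 0 ≤ b j)
    (ht : ∀ j ∈ J, 0 ≤ t j) :
    ∑ j ∈ J, b j ^ (5 / 9 : ℝ) * t j ^ (4 / 9 : ℝ)
      ≤ (∑ j ∈ J, b j) ^ (5 / 9 : ℝ) * (∑ j ∈ J, t j) ^ (4 / 9 : ℝ) := by
  have hpq : (9 / 5 : ℝ).HolderConjugate (9 / 4 : ℝ) := by
    rw [Real.holderConjugate_iff]; norm_num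
  have h := Real.inner_le_Lp_mul_Lq_of_nonneg J hpq (f := fun j => b j ^ (5 / 9 : ℝ))
    (g := fun j => t j ^ (4 / 9 : ℝ)) (fun j hj => Real.rpow_nonneg (hb j hj) _)
    (fun j hj => Real.rpow_nonneg (ht j hj) _)
  have e1 : ∑ j ∈ J, (b j ^ (5 / 9 : ℝ)) ^ (9 / 5 : ℝ) = ∑ j ∈ J, b j := by
    refine Finset.sum_congr rfl fun j hj => ?_
    rw [← Real.rpow_mul (hb j hj)]; norm_num
  have e2 : ∑ j ∈ J, (t j ^ (4 / 9 : ℝ)) ^ (9 / 4 : ℝ) = ∑ j ∈ J, t j := by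
    refine Finset.sum_congr rfl fun j hj => ?_
    rw [← Real.rpow_mul (ht j hj)]; norm_num
  rw [e1, e2] at h
  have e3 : (1 / (9 / 5) : ℝ) = 5 / 9 := by norm_num
  have e4 : (1 / (9 / 4) : ℝ) = 4 / 9 := by norm_num
  rw [e3, e4] at h
  exact h

/-- From `w j ^ 36 ≤ K * b j ^ 20 * t j ^ 17` for all `j ∈ J` (and `J` nonempty): some `j ∈ J` has
`(∑ w) ^ 36 ≤ K * (∑ b) ^ 20 * (∑ t) ^ 16 * t j`. -/
theorem hold {ι : Type*} (J : Finset ι) (hJ : J.Nonempty) (w b t : ι → ℝ) (K : ℝ) (hK : 0 ≤ K)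
    (hw : ∀ j ∈ J, 0 ≤ w j) (hb : ∀ j ∈ J, 0 ≤ b j) (ht : ∀ j ∈ J, 0 ≤ t j)
    (h : ∀ j ∈ J, w j ^ 36 ≤ K * b j ^ 20 * t j ^ 17) :
    ∃ j ∈ J, (∑ i ∈ J, w i) ^ 36 ≤ K * (∑ i ∈ J, b i) ^ 20 * (∑ i ∈ J, t i) ^ 16 * t j := by
  classical
  obtain ⟨m, hm, hmax⟩ := Finset.exists_max_image J t hJ
  refine ⟨m, hm, ?_⟩
  have key : ∀ j ∈ J, w j ≤ (K ^ (1 / 36 : ℝ) * t m ^ (1 / 36 : ℝ))
      * (b j ^ (5 / 9 : ℝ) * t j ^ (4 / 9 : ℝ)) := by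
    intro j hj
    have h1 : w j ^ 36 ≤ ((K ^ (1 / 36 : ℝ) * t m ^ (1 / 36 : ℝ))
        * (b j ^ (5 / 9 : ℝ) * t j ^ (4 / 9 : ℝ))) ^ 36 := by
      have p1 : ((K ^ (1 / 36 : ℝ)) : ℝ) ^ 36 = K := by
        rw [← Real.rpow_natCast, ← Real.rpow_mul hK]; norm_num
      have p2 : ((t m ^ (1 / 36 : ℝ)) : ℝ) ^ 36 = t m := by
        rw [← Real.rpow_natCast, ← Real.rpow_mul (ht m hm)]; norm_num
      have p3 : ((b j ^ (5 / 9 : ℝ)) : ℝ) ^ 36 = b j ^ 20 := by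
        rw [← Real.rpow_natCast, ← Real.rpow_mul (hb j hj), ← Real.rpow_natCast]; norm_num
      have p4 : ((t j ^ (4 / 9 : ℝ)) : ℝ) ^ 36 = t j ^ 16 := by
        rw [← Real.rpow_natCast, ← Real.rpow_mul (ht j hj), ← Real.rpow_natCast]; norm_num
      rw [mul_pow, mul_pow, mul_pow, p1, p2, p3, p4]
      have h2 := h j hj
      have h3 : t j ^ 17 ≤ t j ^ 16 * t m := by
        rw [pow_succ]
        exact mul_le_mul_of_nonneg_left (hmax j hj) (pow_nonneg (ht j hj) _)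
      calc w j ^ 36 ≤ K * b j ^ 20 * t j ^ 17 := h2
        _ ≤ K * b j ^ 20 * (t j ^ 16 * t m) := by
            apply mul_le_mul_of_nonneg_left h3
            exact mul_nonneg hK (pow_nonneg (hb j hj) _)
        _ = K * t m * (b j ^ 20 * t j ^ 16) := by ring
    refine le_of_pow_le_pow_left₀ (by norm_num : (36 : ℕ) ≠ 0) ?_ h1
    exact mul_nonneg (mul_nonneg (Real.rpow_nonneg hK _) (Real.rpow_nonneg (ht m hm) _))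
      (mul_nonneg (Real.rpow_nonneg (hb j hj) _) (Real.rpow_nonneg (ht j hj) _))
  have hsum : ∑ j ∈ J, w j ≤ (K ^ (1 / 36 : ℝ) * t m ^ (1 / 36 : ℝ))
      * ((∑ j ∈ J, b j) ^ (5 / 9 : ℝ) * (∑ j ∈ J, t j) ^ (4 / 9 : ℝ)) := by
    calc ∑ j ∈ J, w j ≤ ∑ j ∈ J, (K ^ (1 / 36 : ℝ) * t m ^ (1 / 36 : ℝ))
          * (b j ^ (5 / 9 : ℝ) * t j ^ (4 / 9 : ℝ)) := Finset.sum_le_sum key
      _ = (K ^ (1 / 36 : ℝ) * t m ^ (1 / 36 : ℝ))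
          * ∑ j ∈ J, (b j ^ (5 / 9 : ℝ) * t j ^ (4 / 9 : ℝ)) := by rw [Finset.mul_sum]
      _ ≤ _ := by
          apply mul_le_mul_of_nonneg_left (hold59 J b t hb ht)
          exact mul_nonneg (Real.rpow_nonneg hK _) (Real.rpow_nonneg (ht m hm) _)
  have hW : 0 ≤ ∑ j ∈ J, w j := Finset.sum_nonneg hw
  have hB : 0 ≤ ∑ j ∈ J, b j := Finset.sum_nonneg hb
  have hT : 0 ≤ ∑ j ∈ J, t j := Finset.sum_nonneg ht
  have h36 := pow_le_pow_left₀ hW hsum 36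
  have p1 : ((K ^ (1 / 36 : ℝ)) : ℝ) ^ 36 = K := by
    rw [← Real.rpow_natCast, ← Real.rpow_mul hK]; norm_num
  have p2 : ((t m ^ (1 / 36 : ℝ)) : ℝ) ^ 36 = t m := by
    rw [← Real.rpow_natCast, ← Real.rpow_mul (ht m hm)]; norm_num
  have p3 : (((∑ j ∈ J, b j) ^ (5 / 9 : ℝ)) : ℝ) ^ 36 = (∑ j ∈ J, b j) ^ 20 := by
    rw [← Real.rpow_natCast, ← Real.rpow_mul hB, ← Real.rpow_natCast]; norm_num
  have p4 : (((∑ j ∈ J, t j) ^ (4 / 9 : ℝ)) : ℝ) ^ 36 = (∑ j ∈ J, t j) ^ 16 := by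
    rw [← Real.rpow_natCast, ← Real.rpow_mul hT, ← Real.rpow_natCast]; norm_num
  rw [mul_pow, mul_pow, mul_pow, p1, p2, p3, p4] at h36
  calc (∑ i ∈ J, w i) ^ 36 ≤ _ := h36
    _ = K * (∑ i ∈ J, b i) ^ 20 * (∑ i ∈ J, t i) ^ 16 * t m := by ring

end Pool.Agent.Lib_helper23.GP
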