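import Mathlib

namespace Pool.Agent.Lib_helper23.GP

/-- Hoelder for the powers `p/(p+q)` and `q/(p+q)`. -/
theorem holdPQ {ι : Type*} (J : Finset ι) (p q : ℕ) (hp : 0 < p) (hq : 0 < q) (b t : ι → ℝ)
    (hb : ∀ j ∈ J, 0 ≤ b j) (ht : ∀ j ∈ J, 0 ≤ t j) :
    ∑ j ∈ J, b j ^ ((p : ℝ) / ((p + q : ℕ) : ℝ)) * t j ^ ((q : ℝ) / ((p + q : ℕ) : ℝ))
      ≤ (∑ j ∈ J, b j) ^ ((p : ℝ) / ((p + q : ℕ) : ℝ)) *
        (∑ j ∈ J, t j) ^ ((q : ℝ) / ((p + q : ℕ) : ℝ)) := by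
  have hp' : (0 : ℝ) < p := by exact_mod_cast hp
  have hq' : (0 : ℝ) < q := by exact_mod_cast hq
  obtain ⟨N, hN⟩ : ∃ N : ℝ, N = ((p + q : ℕ) : ℝ) := ⟨_, rfl⟩
  have hN' : N = (p : ℝ) + q := by rw [hN]; push_cast; ring
  have hN0 : 0 < N := by rw [hN']; positivity
  rw [← hN]
  have hpq : (N / p).HolderConjugate (N / q) := by
    rw [Real.holderConjugate_iff]
    constructor
    · rw [lt_div_iff₀ hp', hN']; linarith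
    · rw [inv_div, inv_div, ← add_div, ← hN', div_self hN0.ne']
  have h := Real.inner_le_Lp_mul_Lq_of_nonneg J hpq (f := fun j => b j ^ ((p : ℝ) / N))
    (g := fun j => t j ^ ((q : ℝ) / N)) (fun j hj => Real.rpow_nonneg (hb j hj) _)
    (fun j hj => Real.rpow_nonneg (ht j hj) _)
  have e1 : ∑ j ∈ J, (b j ^ ((p : ℝ) / N)) ^ (N / p) = ∑ j ∈ J, b j := by
    refine Finset.sum_congr rfl fun j hj => ?_
    rw [← Real.rpow_mul (hb j hj), div_mul_div_cancel₀ hN0.ne', div_self hp'.ne', Real.rpow_one]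
  have e2 : ∑ j ∈ J, (t j ^ ((q : ℝ) / N)) ^ (N / q) = ∑ j ∈ J, t j := by
    refine Finset.sum_congr rfl fun j hj => ?_
    rw [← Real.rpow_mul (ht j hj), div_mul_div_cancel₀ hN0.ne', div_self hq'.ne', Real.rpow_one]
  rw [e1, e2] at h
  have e3 : 1 / (N / p) = (p : ℝ) / N := by rw [one_div, inv_div]
  have e4 : 1 / (N / q) = (q : ℝ) / N := by rw [one_div, inv_div]
  rw [e3, e4] at h
  exact h

lemma rpow_div_pow {x : ℝ} (hx : 0 ≤ x) (p N : ℕ) (hN : 0 < N) :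
    (x ^ ((p : ℝ) / (N : ℝ))) ^ N = x ^ p := by
  have hN' : (0 : ℝ) < N := by exact_mod_cast hN
  rw [← Real.rpow_natCast, ← Real.rpow_mul hx, div_mul_cancel₀ _ hN'.ne', Real.rpow_natCast]

/-- From `w j ^ (p+q) ≤ K * b j ^ p * t j ^ (q+1)` for all `j ∈ J` (and `J` nonempty): some `j ∈ J`
has `(∑ w) ^ (p+q) ≤ K * (∑ b) ^ p * (∑ t) ^ q * t j`. -/
theorem holdG {ι : Type*} (J : Finset ι) (hJ : J.Nonempty) (p q : ℕ) (hp : 0 < p) (hq : 0 < q)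
    (w b t : ι → ℝ) (K : ℝ) (hK : 0 ≤ K)
    (hw : ∀ j ∈ J, 0 ≤ w j) (hb : ∀ j ∈ J, 0 ≤ b j) (ht : ∀ j ∈ J, 0 ≤ t j)
    (h : ∀ j ∈ J, w j ^ (p + q) ≤ K * b j ^ p * t j ^ (q + 1)) :
    ∃ j ∈ J, (∑ i ∈ J, w i) ^ (p + q) ≤ K * (∑ i ∈ J, b i) ^ p * (∑ i ∈ J, t i) ^ q * t j := by
  classical
  obtain ⟨m, hm, hmax⟩ := Finset.exists_max_image J t hJ
  refine ⟨m, hm, ?_⟩
  have hN : 0 < p + q := by omega
  obtain ⟨α, hα⟩ : ∃ α : ℝ, α = (p : ℝ) / ((p + q : ℕ) : ℝ) := ⟨_, rfl⟩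
  obtain ⟨β, hβ⟩ : ∃ β : ℝ, β = (q : ℝ) / ((p + q : ℕ) : ℝ) := ⟨_, rfl⟩
  obtain ⟨γ, hγ⟩ : ∃ γ : ℝ, γ = ((1 : ℕ) : ℝ) / ((p + q : ℕ) : ℝ) := ⟨_, rfl⟩
  have hab : ∀ x : ℝ, 0 ≤ x → (x ^ α) ^ (p + q) = x ^ p := by
    intro x hx; rw [hα]; exact rpow_div_pow hx p (p + q) hN
  have hbb : ∀ x : ℝ, 0 ≤ x → (x ^ β) ^ (p + q) = x ^ q := by
    intro x hx; rw [hβ]; exact rpow_div_pow hx q (p + q) hN
  have hgb : ∀ x : ℝ, 0 ≤ x → (x ^ γ) ^ (p + q) = x := by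
    intro x hx; rw [hγ, rpow_div_pow hx 1 (p + q) hN, pow_one]
  have key : ∀ j ∈ J, w j ≤ (K ^ γ * t m ^ γ) * (b j ^ α * t j ^ β) := by
    intro j hj
    have h1 : w j ^ (p + q) ≤ ((K ^ γ * t m ^ γ) * (b j ^ α * t j ^ β)) ^ (p + q) := by
      rw [mul_pow, mul_pow, mul_pow, hgb K hK, hgb (t m) (ht m hm), hab (b j) (hb j hj),
        hbb (t j) (ht j hj)]
      have h3 : t j ^ (q + 1) ≤ t j ^ q * t m := by
        rw [pow_succ]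
        exact mul_le_mul_of_nonneg_left (hmax j hj) (pow_nonneg (ht j hj) _)
      calc w j ^ (p + q) ≤ K * b j ^ p * t j ^ (q + 1) := h j hj
        _ ≤ K * b j ^ p * (t j ^ q * t m) := by
            apply mul_le_mul_of_nonneg_left h3
            exact mul_nonneg hK (pow_nonneg (hb j hj) _)
        _ = K * t m * (b j ^ p * t j ^ q) := by ring
    refine le_of_pow_le_pow_left₀ (by omega : p + q ≠ 0) ?_ h1
    exact mul_nonneg (mul_nonneg (Real.rpow_nonneg hK _) (Real.rpow_nonneg (ht m hm) _))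
      (mul_nonneg (Real.rpow_nonneg (hb j hj) _) (Real.rpow_nonneg (ht j hj) _))
  have hH := holdPQ J p q hp hq b t hb ht
  rw [← hα, ← hβ] at hH
  have hsum : ∑ j ∈ J, w j ≤ (K ^ γ * t m ^ γ) * ((∑ j ∈ J, b j) ^ α * (∑ j ∈ J, t j) ^ β) := by
    calc ∑ j ∈ J, w j ≤ ∑ j ∈ J, (K ^ γ * t m ^ γ) * (b j ^ α * t j ^ β) :=
          Finset.sum_le_sum key
      _ = (K ^ γ * t m ^ γ) * ∑ j ∈ J, (b j ^ α * t j ^ β) := by rw [Finset.mul_sum]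
      _ ≤ _ := by
          apply mul_le_mul_of_nonneg_left hH
          exact mul_nonneg (Real.rpow_nonneg hK _) (Real.rpow_nonneg (ht m hm) _)
  have hW : 0 ≤ ∑ j ∈ J, w j := Finset.sum_nonneg hw
  have hB : 0 ≤ ∑ j ∈ J, b j := Finset.sum_nonneg hb
  have hT : 0 ≤ ∑ j ∈ J, t j := Finset.sum_nonneg ht
  have h36 := pow_le_pow_left₀ hW hsum (p + q)
  rw [mul_pow, mul_pow, mul_pow, hgb K hK, hgb (t m) (ht m hm), hab _ hB, hbb _ hT] at h36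
  calc (∑ i ∈ J, w i) ^ (p + q) ≤ _ := h36
    _ = K * (∑ i ∈ J, b i) ^ p * (∑ i ∈ J, t i) ^ q * t m := by ring

/-- The Hoelder end of (G*): from `w j ^ 37 ≤ b j ^ 20 * t j ^ 18` for all `j ∈ J` (and `J`
nonempty): some `j ∈ J` has `(∑ w) ^ 37 ≤ (∑ b) ^ 20 * (∑ t) ^ 17 * t j`. -/
theorem hold37 {ι : Type*} (J : Finset ι) (hJ : J.Nonempty) (w b t : ι → ℝ)
    (hw : ∀ j ∈ J, 0 ≤ w j) (hb : ∀ j ∈ J, 0 ≤ b j) (ht : ∀ j ∈ J, 0 ≤ t j)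
    (h : ∀ j ∈ J, w j ^ 37 ≤ b j ^ 20 * t j ^ 18) :
    ∃ j ∈ J, (∑ i ∈ J, w i) ^ 37 ≤ (∑ i ∈ J, b i) ^ 20 * (∑ i ∈ J, t i) ^ 17 * t j := by
  obtain ⟨j, hj, hh⟩ := holdG J hJ 20 17 (by norm_num) (by norm_num) w b t 1 zero_le_one hw hb ht
    (by intro j hj; rw [one_mul]; exact h j hj)
  refine ⟨j, hj, ?_⟩
  rw [one_mul] at hh
  exact hh

end Pool.Agent.Lib_helper23.GP
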