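import Pool.Agent.Lib_helper4.PluriG.App
import Pool.Agent.Lib_helper30.AA.Flat

/-! # Averages, influences and covariances of functions which depend on some of the variables -/

set_option autoImplicit false
set_option linter.unusedSectionVars false

namespace Pool.Agent.Lib_helper23.GP

open Finset Pool.Agent.Lib_helper30.AA Pool.Agent.Lib_helper14.AAQ Pool.Agent.Lib_helper4.PluriG

variable {U V : Type} [Fintype U] [DecidableEq U] [Fintype V] [DecidableEq V]

/-- The average of a function of the variables `s v`. -/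
lemma ex_inj {s : V → U} (hs : Function.Injective s) (G : (V → Bool) → ℝ) :
    ex (fun y : U → Bool => G (fun v => y (s v))) = ex G := by
  classical
  obtain ⟨R, hR⟩ : ∃ R : Set U, R = (Set.range s)ᶜ := ⟨_, rfl⟩
  let e : V ⊕ ((Set.range s)ᶜ : Set U) ≃ U :=
    ((Equiv.ofInjective s hs).sumCongr (Equiv.refl _)).trans (Equiv.Set.sumCompl _)
  have he : ∀ v, e (Sum.inl v) = s v := by
    intro v
    simp [e]
  have hcard : Fintype.card U = Fintype.card V + Fintype.card ((Set.range s)ᶜ : Set U) := by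
    rw [← Fintype.card_congr e, Fintype.card_sum]
  have h1 : ∑ y : U → Bool, G (fun v => y (s v)) =
      ∑ z : V ⊕ ((Set.range s)ᶜ : Set U) → Bool, G (fun v => z (Sum.inl v)) := by
    exact Fintype.sum_equiv (Equiv.arrowCongr e.symm (Equiv.refl Bool)) _ _ (fun y => by
      congr 1)
  have h2 : ∑ z : V ⊕ ((Set.range s)ᶜ : Set U) → Bool, G (fun v => z (Sum.inl v)) =
      ∑ x : V → Bool, ∑ _t : ((Set.range s)ᶜ : Set U) → Bool, G x := by
    rw [← Fintype.sum_prod_type' (f := fun x _ => G x)]
    exact Fintype.sum_equiv (Equiv.sumArrowEquivProdArrow _ _ _) _ _ fun z => rfl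
  unfold ex
  rw [h1, h2, hcard]
  simp only [Finset.sum_const, Finset.card_univ, nsmul_eq_mul, ← Finset.mul_sum]
  rw [Fintype.card_fun, Fintype.card_bool]
  push_cast
  rw [pow_add]
  field_simp

/-- The influence. -/
noncomputable def inf (f : (V → Bool) → ℝ) (k : V) : ℝ :=
  ex (fun v => ((f v - f (Function.update v k (!v k))) / 2) ^ 2)

lemma inf_nonneg (f : (V → Bool) → ℝ) (k : V) : 0 ≤ inf f k := by
  unfold inf ex
  positivity

lemma inf_inj {s : V → U} (hs : Function.Injective s) (f : (V → Bool) → ℝ) (k : V) :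
    inf (fun y : U → Bool => f (fun v => y (s v))) (s k) = inf f k := by
  unfold inf
  rw [← ex_inj hs (fun v => ((f v - f (Function.update v k (!v k))) / 2) ^ 2)]
  congr 1
  funext y
  have h : (fun v => Function.update y (s k) (!y (s k)) (s v)) =
      Function.update (fun v => y (s v)) k (!y (s k)) := by
    funext v
    by_cases hv : v = k
    · subst hv
      simp
    · rw [Function.update_of_ne hv, Function.update_of_ne (fun h => hv (hs h))]
  show ((f (fun v => y (s v)) - f (fun v => Function.update y (s k) (!y (s k)) (s v))) / 2) ^ 2 = _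
  rw [h]

lemma inf_inj_zero {s : V → U} (f : (V → Bool) → ℝ) {u : U} (hu : ∀ v, s v ≠ u) :
    inf (fun y : U → Bool => f (fun v => y (s v))) u = 0 := by
  unfold inf
  have h : ∀ y : U → Bool, ((f (fun v => y (s v)) -
      f (fun v => Function.update y u (!y u) (s v))) / 2) ^ 2 = 0 := by
    intro y
    have h1 : (fun v => Function.update y u (!y u) (s v)) = fun v => y (s v) := by
      funext v
      rw [Function.update_of_ne (hu v)]
    rw [h1]
    simp
  show ex (fun y : U → Bool => ((f (fun v => y (s v)) -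
      f (fun v => Function.update y u (!y u) (s v))) / 2) ^ 2) = 0
  simp_rw [h]
  exact ex_const 0

/-- The covariance. -/
noncomputable def cov (h f : (V → Bool) → ℝ) : ℝ := ex (fun x => h x * f x) - ex h * ex f

lemma cov_inj {s : V → U} (hs : Function.Injective s) (h f : (V → Bool) → ℝ) :
    cov (fun y : U → Bool => h (fun v => y (s v))) (fun y => f (fun v => y (s v))) = cov h f := by
  unfold cov
  rw [← ex_inj hs (fun x => h x * f x), ← ex_inj hs h, ← ex_inj hs f]

lemma cov_sum {A : Type} [Fintype A] (p : A → ℝ) (h : A → (V → Bool) → ℝ) (f : (V → Bool) → ℝ) :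
    cov (fun v => ∑ a, p a * h a v) f = ∑ a, p a * cov (h a) f := by
  unfold cov ex
  simp_rw [Finset.sum_mul]
  rw [Finset.sum_comm]
  rw [show (∑ x : V → Bool, ∑ a, p a * h a x) = ∑ a, ∑ x : V → Bool, p a * h a x from
    Finset.sum_comm]
  rw [Finset.mul_sum, Finset.mul_sum, Finset.sum_mul, ← Finset.sum_sub_distrib]
  refine Finset.sum_congr rfl fun a _ => ?_
  have e1 : ∑ x : V → Bool, p a * h a x * f x = p a * ∑ x : V → Bool, h a x * f x := by
    rw [Finset.mul_sum]; exact Finset.sum_congr rfl fun x _ => by ring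
  have e2 : ∑ x : V → Bool, p a * h a x = p a * ∑ x : V → Bool, h a x := by
    rw [Finset.mul_sum]
  rw [e1, e2]
  ring

/-- A monomial in the support of the Fourier expansion meets few groups. -/
lemma groups_le {n m : ℕ} {g : Fin n → Fin m} {c : (Fin m → Bool) → Finset (Fin n) → ℂ} {r : ℕ}
    (hr : ∀ u S, c u S ≠ 0 → (S.image g).card ≤ r) {W : Finset (Fin n ⊕ Fin n)}
    (hW : coef (F g c) W ≠ 0) : (W.image (Sum.elim g g)).card ≤ r := by
  rw [coef_F] at hW
  obtain ⟨u, -, hS⟩ := Finset.exists_ne_zero_of_sum_ne_zero hW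
  obtain ⟨S, -, hS⟩ := Finset.exists_ne_zero_of_sum_ne_zero hS
  obtain ⟨t, ht, hS⟩ := Finset.exists_ne_zero_of_sum_ne_zero hS
  have hc : c u S ≠ 0 := by
    rintro h
    rw [h] at hS
    simp at hS
  have hWe : t.disjSum (S \ t) = W := by
    by_contra h
    rw [if_neg h, mul_zero] at hS
    exact hS rfl
  refine le_trans (Finset.card_le_card ?_) (hr u S hc)
  intro x hx
  rw [Finset.mem_image] at hx ⊢
  obtain ⟨i, hi, hix⟩ := hx
  rw [← hWe, Finset.mem_disjSum] at hi
  rcases hi with ⟨a, ha, rfl⟩ | ⟨b, hb, rfl⟩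
  · exact ⟨a, Finset.mem_powerset.mp ht ha, hix⟩
  · exact ⟨b, (Finset.mem_sdiff.mp hb).1, hix⟩

/-- The weighted correlation of (C*), all variables. -/
noncomputable def wc {n m : ℕ} (g : Fin n → Fin m) (h f : (Fin n ⊕ Fin n → Bool) → ℝ) : ℝ :=
  ∑ W ∈ (univ : Finset (Finset (Fin n ⊕ Fin n))).filter (fun W => W.Nonempty),
    |coef h W * coef f W| / 64 ^ ((W.image (Sum.elim g g)).card - 1)

/-- The covariance is at most the weighted correlation, up to the price of the groups. -/
lemma cov_le_wc {n m : ℕ} (g : Fin n → Fin m) (c : (Fin m → Bool) → Finset (Fin n) → ℂ) (k : ℕ)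
    (hk : ∀ u S, c u S ≠ 0 → (S.image g).card ≤ k + 1) (f : (Fin n ⊕ Fin n → Bool) → ℝ) :
    |cov (F g c) f| ≤ 64 ^ k * wc g (F g c) f := by
  unfold cov wc
  rw [cov_eq, Finset.mul_sum]
  refine (Finset.abs_sum_le_sum_abs _ _).trans (Finset.sum_le_sum fun W _ => ?_)
  by_cases h0 : coef (F g c) W = 0
  · simp [h0]
  · have h1 := groups_le hk h0
    have h2 : (64 : ℝ) ^ ((W.image (Sum.elim g g)).card - 1) ≤ 64 ^ k :=
      pow_le_pow_right₀ (by norm_num) (by omega)
    have h3 : (0 : ℝ) < 64 ^ ((W.image (Sum.elim g g)).card - 1) := by positivity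
    rw [mul_div_assoc', le_div_iff₀ h3, mul_comm]
    exact mul_le_mul_of_nonneg_right h2 (abs_nonneg _)

end Pool.Agent.Lib_helper23.GP
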