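import Pool.Agent.Lib_helper23.GP.Inj

/-! # Products over disjoint sets of variables -/

set_option autoImplicit false
set_option linter.unusedSectionVars false

namespace Pool.Agent.Lib_helper23.GP

open Finset Pool.Agent.Lib_helper30.AA

variable {V : Type} [Fintype V] [DecidableEq V]

/-- Averaging first over the variables in `T`, then over the others. -/
lemma ex_mix (T : Finset V) (K : (V → Bool) → ℝ) :
    ex (fun x => ex (fun y => K (mix T x y))) = ex K := by
  have h := ex_coef_mix K T ∅
  simp only [coef_empty, Finset.empty_subset, if_true] at h
  exact h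

lemma mix_eq_left {T : Finset V} {q : (V → Bool) → ℝ}
    (hq : ∀ x y : V → Bool, (∀ v, v ∉ T → x v = y v) → q x = q y) (x y : V → Bool) :
    q (mix T x y) = q x :=
  hq _ _ fun v hv => by simp [mix, hv]

lemma mix_eq_right {T : Finset V} {r : (V → Bool) → ℝ}
    (hr : ∀ x y : V → Bool, (∀ v ∈ T, x v = y v) → r x = r y) (x y : V → Bool) :
    r (mix T x y) = r y :=
  hr _ _ fun v hv => by simp [mix, hv]

lemma sq_mul_le {a b : ℝ} (ha : |a| ≤ 1) : (a * b) ^ 2 ≤ b ^ 2 := by
  have h : a ^ 2 ≤ 1 := by
    rw [← sq_abs]
    nlinarith [abs_nonneg a]
  nlinarith [sq_nonneg b, sq_nonneg (a * b)]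

/-- **The product step.** -/
theorem prod_step (T : Finset V) (q r F : (V → Bool) → ℝ)
    (hq : ∀ x y : V → Bool, (∀ v, v ∉ T → x v = y v) → q x = q y)
    (hr : ∀ x y : V → Bool, (∀ v ∈ T, x v = y v) → r x = r y) (hr1 : ∀ x, |r x| ≤ 1) :
    ∃ G : (V → Bool) → ℝ, ex (fun x => G x ^ 2) ≤ ex (fun x => F x ^ 2) ∧
      (∀ u, inf G u ≤ inf F u) ∧
      cov (fun x => q x * r x) F = cov q G + ex q * cov r F := by
  refine ⟨fun x => ex (fun y => r y * F (mix T x y)), ?_, ?_, ?_⟩
  · rw [← ex_mix T (fun x => F x ^ 2)]
    refine ex_mono fun x => ?_
    refine (sq_ex_le _).trans (ex_mono fun y => ?_)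
    exact sq_mul_le (hr1 y)
  · intro u
    by_cases hu : u ∈ T
    · have h0 : inf (fun x => ex (fun y => r y * F (mix T x y))) u = 0 := by
        unfold inf
        have h1 : ∀ x : V → Bool, ((ex (fun y => r y * F (mix T x y)) -
            ex (fun y => r y * F (mix T (Function.update x u (!x u)) y))) / 2) ^ 2 = 0 := by
          intro x
          have h2 : ∀ y : V → Bool, mix T (Function.update x u (!x u)) y = mix T x y := by
            intro y
            funext v
            unfold mix
            by_cases hv : v ∈ T
            · simp [hv]
            · rw [if_neg hv, if_neg hv, Function.update_of_ne]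
              rintro rfl
              exact hv hu
          simp_rw [h2]
          simp
        show ex (fun x : V → Bool => ((ex (fun y => r y * F (mix T x y)) -
            ex (fun y => r y * F (mix T (Function.update x u (!x u)) y))) / 2) ^ 2) = 0
        simp_rw [h1]
        exact ex_const 0
      rw [h0]
      exact inf_nonneg F u
    · unfold inf
      rw [← ex_mix T (fun v => ((F v - F (Function.update v u (!v u))) / 2) ^ 2)]
      refine ex_mono fun x => ?_
      have h2 : ∀ y : V → Bool, mix T (Function.update x u (!x u)) y =
          Function.update (mix T x y) u (!(mix T x y) u) := by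
        intro y
        have hm : mix T x y u = x u := by simp [mix, hu]
        rw [hm]
        funext v
        by_cases hv : v = u
        · subst hv
          simp [mix, hu]
        · by_cases hv2 : v ∈ T
          · simp [mix, hv, hv2]
          · simp [mix, hv, hv2]
      have h3 : (ex (fun y => r y * F (mix T x y)) -
          ex (fun y => r y * F (mix T (Function.update x u (!x u)) y))) / 2 =
          ex (fun y => r y * ((F (mix T x y) -
            F (Function.update (mix T x y) u (!(mix T x y) u))) / 2)) := by
        simp_rw [h2]
        rw [← ex_sub, div_eq_inv_mul, ← ex_const_mul]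
        congr 1
        funext y
        ring
      show ((ex (fun y => r y * F (mix T x y)) -
          ex (fun y => r y * F (mix T (Function.update x u (!x u)) y))) / 2) ^ 2 ≤ _
      rw [h3]
      refine (sq_ex_le _).trans (ex_mono fun y => ?_)
      exact sq_mul_le (hr1 y)
  · unfold cov
    have e1 : ex (fun x => q x * r x * F x) =
        ex (fun x => q x * ex (fun y => r y * F (mix T x y))) := by
      rw [← ex_mix T (fun x => q x * r x * F x)]
      congr 1
      funext x
      rw [← ex_const_mul]
      congr 1
      funext y
      rw [mix_eq_left hq, mix_eq_right hr]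
      ring
    have e2 : ex (fun x => r x * F x) = ex (fun x => ex (fun y => r y * F (mix T x y))) := by
      rw [← ex_mix T (fun x => r x * F x)]
      congr 1
      funext x
      congr 1
      funext y
      rw [mix_eq_right hr]
    have e3 : ex (fun x => q x * r x) = ex q * ex r := by
      rw [← ex_mix T (fun x => q x * r x)]
      have h1 : (fun x => ex (fun y => q (mix T x y) * r (mix T x y))) =
          fun x => ex r * q x := by
        funext x
        have h2 : (fun y => q (mix T x y) * r (mix T x y)) = fun y => q x * r y := by
          funext y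
          rw [mix_eq_left hq, mix_eq_right hr]
        rw [h2, ex_const_mul, mul_comm]
      rw [h1, ex_const_mul, mul_comm]
    rw [e1, e2, e3]
    ring

end Pool.Agent.Lib_helper23.GP
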